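import Mathlib

/-!
# Algebraic independence and linear changes
-/

set_option autoImplicit false

namespace Pool.Agent.Q244.AI

open MvPolynomial Finset

variable {k E : Type*} [Field k] [Field E] [Algebra k E]

/-- Linearly independent elements of the span of algebraically independent elements are
algebraically independent. -/
theorem of_span {ι κ : Type*} {b : ι → E} (hb : AlgebraicIndependent k b) {x : κ → E}
    (hx : ∀ j, x j ∈ Submodule.span k (Set.range b)) (hli : LinearIndependent k x) :
    AlgebraicIndependent k x := by
  classical
  have h1 : ∀ j, ∃ c : ι →₀ k, Finsupp.linearCombination k b c = x j := fun j =>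
    Finsupp.mem_span_range_iff_exists_finsupp.1 (hx j)
  choose c hc using h1
  have hcli : LinearIndependent k c := by
    have h2 : LinearIndependent k (Finsupp.linearCombination k b ∘ c) := by
      have : Finsupp.linearCombination k b ∘ c = x := funext hc
      rw [this]
      exact hli
    exact LinearIndependent.of_comp _ h2
  obtain ⟨G, hG⟩ := LinearMap.exists_leftInverse_of_injective
    (Finsupp.linearCombination k c) (LinearMap.ker_eq_bot.2 hcli)
  have hGc : ∀ j, G (c j) = Finsupp.single j 1 := by
    intro j
    have := LinearMap.congr_fun hG (Finsupp.single j 1)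
    rwa [LinearMap.comp_apply, Finsupp.linearCombination_single, one_smul] at this
  let T : (ι →₀ k) →ₗ[k] MvPolynomial ι k := Finsupp.linearCombination k (X : ι → MvPolynomial ι k)
  let T' : (κ →₀ k) →ₗ[k] MvPolynomial κ k :=
    Finsupp.linearCombination k (X : κ → MvPolynomial κ k)
  let f : MvPolynomial κ k →ₐ[k] MvPolynomial ι k := aeval (fun j => T (c j))
  let g : MvPolynomial ι k →ₐ[k] MvPolynomial κ k := aeval (fun i => T' (G (Finsupp.single i 1)))
  have hgT : ∀ v, g (T v) = T' (G v) := by
    intro v
    have h3 : g.toLinearMap ∘ₗ T = T' ∘ₗ G := by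
      ext i
      simp [T, g]
    exact LinearMap.congr_fun h3 v
  have hgf : g.comp f = AlgHom.id k _ := by
    apply MvPolynomial.algHom_ext
    intro j
    rw [AlgHom.comp_apply, AlgHom.id_apply]
    simp only [f, aeval_X]
    rw [hgT, hGc]
    simp [T']
  have hf : Function.Injective f := by
    intro u v huv
    have := congrArg g huv
    rwa [← AlgHom.comp_apply, ← AlgHom.comp_apply, hgf] at this
  have hxf : (aeval x : MvPolynomial κ k →ₐ[k] E) = (aeval b).comp f := by
    apply MvPolynomial.algHom_ext
    intro j
    rw [AlgHom.comp_apply]
    simp only [f, aeval_X]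
    have h4 : ∀ v : ι →₀ k, aeval b (T v) = Finsupp.linearCombination k b v := by
      intro v
      have h5 : (aeval b : MvPolynomial ι k →ₐ[k] E).toLinearMap ∘ₗ T =
          Finsupp.linearCombination k b := by
        ext i
        simp [T]
      exact LinearMap.congr_fun h5 v
    rw [h4, hc]
  rw [algebraicIndependent_iff_injective_aeval, hxf]
  exact (algebraicIndependent_iff_injective_aeval.1 hb).comp hf

/-- Every finite linearly independent family in `S` is algebraically independent. -/
def Ind (k : Type*) {E : Type*} [Field k] [Field E] [Algebra k E] (S : Set E) : Prop :=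
  ∀ (n : ℕ) (x : Fin n → E), (∀ i, x i ∈ S) → LinearIndependent k x → AlgebraicIndependent k x

/-- The property passes to the span. -/
theorem Ind.span {S : Set E} (h : Ind k S) : Ind k (Submodule.span k S : Set E) := by
  classical
  intro n x hx hli
  -- a basis of the span consisting of elements of `S`
  obtain ⟨B, hBS, hspan, hB⟩ := exists_linearIndependent k S
  have hBalg : AlgebraicIndependent k (fun b : B => (b : E)) := by
    rw [← algebraicIndependent_equiv' (Equiv.refl B) rfl]
    refine algebraicIndependent_of_finite_type fun t ht => ?_
    have := ht.fintype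
    let e := Fintype.equivFin t
    have h1 := h (Fintype.card t) (fun i => ((e.symm i : t) : B).1)
      (fun i => hBS ((e.symm i : t) : B).2)
      (hB.comp (fun i => ((e.symm i : t) : B)) (Subtype.val_injective.comp e.symm.injective))
    exact (algebraicIndependent_equiv' e.symm rfl).1 h1
  refine of_span hBalg (fun j => ?_) hli
  have h2 : Set.range (fun b : B => (b : E)) = B := Subtype.range_coe
  rw [h2, hspan]
  exact hx j

theorem Ind.mono {S T : Set E} (h : Ind k T) (hST : S ⊆ T) : Ind k S :=
  fun n x hx hli => h n x (fun i => hST (hx i)) hli

end Pool.Agent.Q244.AI
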